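import Pool.Agent.Run7.h723.OG.Iface2

/-! # Piece PAIR2 of the oriented domination game (MP_e4b521_co), helper344 -/

set_option autoImplicit false
set_option linter.unusedSectionVars false

namespace Pool.Agent.Run7.h344.OG

open Pool.H723.OG
open scoped Classical

variable {V : Type} [Fintype V] (G : SimpleGraph V)

/-- the neighbourhood -/
noncomputable def N (v : V) : Finset V := Finset.univ.filter (fun u => G.Adj u v)

theorem mem_N (u v : V) : u ∈ N G v ↔ G.Adj u v := by simp [N]

theorem dg_eq (v : V) : dg G v = (N G v).card := rfl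

omit [Fintype V] in
theorem nb3 [DecidableEq V] {x y z : V} (hxy : x ≠ y) (hxz : x ≠ z) (hyz : y ≠ z) (v : V) :
    nb G {x, y, z} v = (if G.Adj x v then 1 else 0) + (if G.Adj y v then 1 else 0) +
      (if G.Adj z v then 1 else 0) := by
  unfold nb
  rw [Finset.card_filter, Finset.sum_insert (by simp [hxy, hxz]), Finset.sum_insert (by simp [hyz]),
    Finset.sum_singleton]
  ring

/-- the basic inequality -/
theorem w3_le [DecidableEq V] {x y z : V} (hxy : x ≠ y) (hxz : x ≠ z) (hyz : y ≠ z) :
    w3 G x y z ≤ ((N G x ∩ N G y).filter (fun v => v ≠ z)).card +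
      (((N G x ∪ N G y).filter (fun v => v ≠ x ∧ v ≠ y)).filter (fun v => G.Adj v z)).card := by
  have h1 : w3 G x y z = ∑ v : V, (2 * (if v ∉ ({x, y, z} : Finset V) ∧ nb G {x, y, z} v = 3 then 1 else 0) +
      (if v ∉ ({x, y, z} : Finset V) ∧ nb G {x, y, z} v = 2 then 1 else 0)) := by
    rw [Finset.sum_add_distrib, ← Finset.mul_sum, ← Finset.card_filter, ← Finset.card_filter]
    unfold w3 lev
    congr! 
  have h2 : ((N G x ∩ N G y).filter (fun v => v ≠ z)).card =
      ∑ v : V, (if v ∈ N G x ∧ v ∈ N G y ∧ v ≠ z then 1 else 0) := by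
    rw [← Finset.card_filter]
    congr 1
    ext v
    simp [and_assoc]
  have h3 : (((N G x ∪ N G y).filter (fun v => v ≠ x ∧ v ≠ y)).filter (fun v => G.Adj v z)).card =
      ∑ v : V, (if (v ∈ N G x ∨ v ∈ N G y) ∧ v ≠ x ∧ v ≠ y ∧ G.Adj v z then 1 else 0) := by
    rw [← Finset.card_filter]
    congr 1
    ext v
    simp [and_assoc]
  rw [h1, h2, h3, ← Finset.sum_add_distrib]
  refine Finset.sum_le_sum fun v _ => ?_
  rw [nb3 G hxy hxz hyz]
  simp only [mem_N, Finset.mem_insert, Finset.mem_singleton, not_or, G.adj_comm x v, G.adj_comm y v,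
    G.adj_comm z v]
  by_cases a : G.Adj v x <;> by_cases b : G.Adj v y <;> by_cases c : G.Adj v z <;>
    by_cases d : v = x <;> by_cases e : v = y <;> by_cases f : v = z <;> simp_all

theorem cost_le (D : Finset V) (x y : V)
    (h : ∀ z, z ∉ D → z ≠ x → z ≠ y → 2 ≤ nb G D z) (hx : 1 ≤ nb G D x) (hy : 1 ≤ nb G D y)
    (hxy : 2 ≤ nb G D x ∨ 2 ≤ nb G D y) : cost2 G D ≤ 2 * D.card + 1 := by
  have h0 : (lev G D 0).card = 0 := by
    rw [Finset.card_eq_zero, Finset.eq_empty_iff_forall_notMem]
    intro v hv
    simp only [lev, Finset.mem_filter, Finset.mem_univ, true_and] at hv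
    by_cases h1 : v = x
    · subst h1; omega
    · by_cases h2 : v = y
      · subst h2; omega
      · have := h v hv.1 h1 h2
        omega
  have h1 : (lev G D 1).card ≤ 1 := by
    rcases hxy with h2 | h2
    · refine (Finset.card_le_card (t := {y}) fun v hv => ?_).trans (by simp)
      simp only [lev, Finset.mem_filter, Finset.mem_univ, true_and] at hv
      rw [Finset.mem_singleton]
      by_contra h3
      by_cases h4 : v = x
      · subst h4; omega
      · have := h v hv.1 h4 h3
        omega
    · refine (Finset.card_le_card (t := {x}) fun v hv => ?_).trans (by simp)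
      simp only [lev, Finset.mem_filter, Finset.mem_univ, true_and] at hv
      rw [Finset.mem_singleton]
      by_contra h3
      by_cases h4 : v = y
      · subst h4; omega
      · have := h v hv.1 h3 h4
        omega
  unfold cost2
  omega

theorem t_PAIR2 (hCOST : S_COST) : S_PAIR2 := by
  intro V _ _ G x y hn hw hxy hx hy hne hsum
  have key : ∀ z, z ≠ x → z ≠ y → 4 ≤ ((N G x ∩ N G y).filter (fun v => v ≠ z)).card +
      (((N G x ∪ N G y).filter (fun v => v ≠ x ∧ v ≠ y)).filter (fun v => G.Adj v z)).card := by
    intro z h1 h2
    exact (hw x y z hxy (Ne.symm h1) (Ne.symm h2)).trans (w3_le G hxy (Ne.symm h1) (Ne.symm h2))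
  have hcc : (N G x ∪ N G y).card + (N G x ∩ N G y).card = dg G x + dg G y :=
    Finset.card_union_add_card_inter _ _
  set C := N G x ∩ N G y with hC
  set U := (N G x ∪ N G y).filter (fun v => v ≠ x ∧ v ≠ y) with hU
  have hCU : C ⊆ U := by
    intro v hv
    rw [hC, Finset.mem_inter, mem_N, mem_N] at hv
    rw [hU, Finset.mem_filter, Finset.mem_union, mem_N, mem_N]
    exact ⟨Or.inl hv.1, fun h => G.irrefl (h ▸ hv.1), fun h => G.irrefl (h ▸ hv.2)⟩
  have hCf : ∀ z, (C.filter (fun v => v ≠ z)).card ≤ C.card := fun z =>
    Finset.card_le_card (Finset.filter_subset _ _)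
  by_cases hadj : G.Adj x y
  · exfalso
    have hcard : U.card + 2 ≤ (N G x ∪ N G y).card := by
      have h1 : insert x (insert y U) ⊆ N G x ∪ N G y := by
        intro v hv
        rw [Finset.mem_insert, Finset.mem_insert] at hv
        rw [Finset.mem_union, mem_N, mem_N]
        rcases hv with h | h | h
        · subst h; exact Or.inr hadj
        · subst h; exact Or.inl hadj.symm
        · rw [hU, Finset.mem_filter, Finset.mem_union, mem_N, mem_N] at h
          exact h.1
      have h2 : y ∉ U := by simp [hU]
      have h3 : x ∉ insert y U := by simp [hU, hxy]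
      have h4 := Finset.card_le_card h1
      rw [Finset.card_insert_of_notMem h3, Finset.card_insert_of_notMem h2] at h4
      omega
    rcases U.eq_empty_or_nonempty with h | ⟨z, hz⟩
    · obtain ⟨z, hz⟩ : ∃ z, z ∉ ({x, y} : Finset V) := by
        by_contra h1
        push Not at h1
        have h2 : Fintype.card V ≤ ({x, y} : Finset V).card := by
          rw [← Finset.card_univ]
          exact Finset.card_le_card fun v _ => h1 v
        have h3 := Finset.card_le_two (a := x) (b := y)
        omega
      rw [Finset.mem_insert, Finset.mem_singleton, not_or] at hz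
      have h1 := key z hz.1 hz.2
      have h2 : C = ∅ := Finset.subset_empty.1 (h ▸ hCU)
      rw [h, h2] at h1
      simp at h1
    · have hz' := hz
      rw [hU, Finset.mem_filter] at hz'
      have h1 := key z hz'.2.1 hz'.2.2
      have h2 : (U.filter (fun v => G.Adj v z)).card ≤ (U.erase z).card := by
        refine Finset.card_le_card fun v hv => ?_
        rw [Finset.mem_filter] at hv
        rw [Finset.mem_erase]
        exact ⟨fun h => G.irrefl (h ▸ hv.2), hv.1⟩
      rw [Finset.card_erase_of_mem hz] at h2
      have h3 := hCf z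
      have h4 : 0 < U.card := Finset.card_pos.2 ⟨z, hz⟩
      omega
  · have hUe : U = N G x ∪ N G y := by
      rw [hU, Finset.filter_eq_self]
      intro v hv
      rw [Finset.mem_union, mem_N, mem_N] at hv
      constructor
      · rintro rfl
        rcases hv with h | h
        · exact G.irrefl h
        · exact hadj h
      · rintro rfl
        rcases hv with h | h
        · exact hadj h.symm
        · exact G.irrefl h
    have hNx : N G x ⊆ U := hUe ▸ Finset.subset_union_left
    have hNy : N G y ⊆ U := hUe ▸ Finset.subset_union_right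
    rw [← hUe] at hcc
    have hsplit : ∀ (D : Finset V) z, (D.filter (fun v => G.Adj v z)).card +
        (D.filter (fun v => ¬ G.Adj v z)).card = D.card := fun D z =>
      Finset.card_filter_add_card_filter_not _
    have hnb : ∀ D z, nb G D z = (D.filter (fun v => G.Adj v z)).card := fun D z => rfl
    have hdgx : dg G x = (N G x).card := rfl
    have hdgy : dg G y = (N G y).card := rfl
    by_cases h4 : 4 ≤ U.card
    · left
      obtain ⟨A, hA, hAc⟩ := Finset.exists_subset_card_eq (s := N G x) (n := min 2 (dg G x))
        (by rw [hdgx]; exact min_le_right _ _)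
      obtain ⟨B, hB, hBc⟩ := Finset.exists_subset_card_eq (s := N G y) (n := min 2 (dg G y))
        (by rw [hdgy]; exact min_le_right _ _)
      have hAB : (A ∪ B).card ≤ 4 := by
        have := Finset.card_union_le A B
        omega
      obtain ⟨D, hD1, hD2, hDc⟩ := Finset.exists_subsuperset_card_eq
        (Finset.union_subset (hA.trans hNx) (hB.trans hNy)) hAB h4
      have hx2 : min 2 (dg G x) ≤ nb G D x := by
        rw [← hAc, hnb]
        refine Finset.card_le_card fun v hv => ?_
        rw [Finset.mem_filter]
        exact ⟨hD1 (Finset.mem_union_left _ hv), (mem_N G _ _).1 (hA hv)⟩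
      have hy2 : min 2 (dg G y) ≤ nb G D y := by
        rw [← hBc, hnb]
        refine Finset.card_le_card fun v hv => ?_
        rw [Finset.mem_filter]
        exact ⟨hD1 (Finset.mem_union_right _ hv), (mem_N G _ _).1 (hB hv)⟩
      refine hCOST V G D 4 ((cost_le G D x y ?_ (by omega) (by omega) (by omega)).trans
        (by omega))
      intro z _ h1 h2
      have h3 := key z h1 h2
      have h5 := hCf z
      have h6 := hsplit U z
      have h7 := hsplit D z
      have h8 : (D.filter (fun v => ¬ G.Adj v z)).card ≤ (U.filter (fun v => ¬ G.Adj v z)).card :=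
        Finset.card_le_card (Finset.filter_subset_filter _ hD2)
      rw [hnb]
      omega
    · by_cases hc : C.card ≤ 2
      · left
        have hx2 : dg G x ≤ nb G U x := by
          rw [hdgx, hnb]
          refine Finset.card_le_card fun v hv => ?_
          rw [Finset.mem_filter]
          exact ⟨hNx hv, (mem_N G _ _).1 hv⟩
        have hy2 : dg G y ≤ nb G U y := by
          rw [hdgy, hnb]
          refine Finset.card_le_card fun v hv => ?_
          rw [Finset.mem_filter]
          exact ⟨hNy hv, (mem_N G _ _).1 hv⟩
        refine hCOST V G U 4 ((cost_le G U x y ?_ (by omega) (by omega) (by omega)).trans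
          (by omega))
        intro z _ h1 h2
        have h3 := key z h1 h2
        have h5 := hCf z
        rw [hnb]
        omega
      · right
        have h1 : C = U := Finset.eq_of_subset_of_card_le hCU (by omega)
        have h2 : N G x = U := Finset.Subset.antisymm hNx (h1 ▸ Finset.inter_subset_left)
        have h3 : N G y = U := Finset.Subset.antisymm hNy (h1 ▸ Finset.inter_subset_right)
        have h5 : U.card = 3 := by
          have := Finset.card_le_card hCU
          omega
        refine ⟨by rw [hdgx, h2, h5], by rw [hdgy, h3, h5], fun v => ?_⟩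
        rw [G.adj_comm x v, G.adj_comm y v, ← mem_N G v x, ← mem_N G v y, h2, h3]

end Pool.Agent.Run7.h344.OG
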